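import Pool.Agent.H88.Gen.Final

/-!
# A countably categorical NSOP1 theory without the existence axiom
-/

set_option autoImplicit false

namespace Pool.Agent.Results.MP_4b3c04_lc.OmegaCategoricalForking

open FirstOrder FirstOrder.Language Pool.Agent.H88.Gen

/-- There is a complete, countably categorical theory in a countable language which is NSOP1 and
NSOP and has a complete 1-type over the empty set (the type of an element of a countable model)
which forks over the empty set. -/
theorem result : ∃ (L : FirstOrder.Language.{0, 0}) (T : L.Theory),
    Countable L.Symbols ∧ T.IsComplete ∧ (∀ M : Theory.ModelType.{0, 0, 0} T, Infinite M) ∧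
      Cardinal.Categorical Cardinal.aleph0.{0} T ∧ ¬ HasSOP1 T ∧ ¬ HasSOP T ∧
      ∃ (M : Theory.ModelType.{0, 0, 0} T) (a : Fin 1 → M),
        Countable M ∧ TypeForks L (∅ : Set M) a := by
  obtain ⟨x, hx⟩ := exists_colouring
  have hMo : Mo ⊨ TT := inferInstanceAs (Mo ⊨ LL.completeTheory Mo)
  exact ⟨LL, TT, inferInstance, complete_TT, fun M => infinite_model M M.is_model,
    categorical_TT, no_SOP1, no_SOP, Theory.ModelType.of TT Mo, fun _ => x,
    inferInstanceAs (Countable ℕ), typeForks_col hx⟩

end Pool.Agent.Results.MP_4b3c04_lc.OmegaCategoricalForking
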